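import Mathlib

/-!
MP_362e7f_co.  For all `3 ≤ f < h` (with `f' = f` and `β = 0`) the asserted supersaturation bound
`e(F) ≥ c k ^ (f / (h - β))` fails: there is a hereditary family satisfying all the hypotheses in
which `e(F) ≤ (h - f + 2) k ^ (2 / (h - f + 2))` for arbitrarily large `k = e(H)`.
-/

set_option autoImplicit false

namespace Pool.Agent.Results.MP_362e7f_co.Coning

open Finset

/-- A hypergraph pair: a finite vertex set `V` (of natural numbers) and two multisets `H`, `F` of
subsets of `V`. -/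
structure HPair where
  /-- the vertex set -/
  V : Finset ℕ
  /-- the edges of the first hypergraph, with multiplicity -/
  H : Multiset (Finset ℕ)
  /-- the edges of the second hypergraph, with multiplicity -/
  F : Multiset (Finset ℕ)
  hH : ∀ e ∈ H, e ⊆ V
  hF : ∀ e ∈ F, e ⊆ V

/-- The pair induced on a set `S` of vertices. -/
def HPair.restrict (P : HPair) (S : Finset ℕ) : HPair where
  V := S
  H := P.H.filter (fun e => e ⊆ S)
  F := P.F.filter (fun e => e ⊆ S)
  hH := fun _ he => (Multiset.mem_filter.1 he).2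
  hF := fun _ he => (Multiset.mem_filter.1 he).2

/-- `α_H(F)`: the maximum number of edges of `H` inside a set `I` independent in `F`. -/
def HPair.alpha (P : HPair) : ℕ :=
  (P.V.powerset.filter (fun I => (P.F.filter (fun e => e ⊆ I)).card = 0)).sup
    (fun I => (P.H.filter (fun e => e ⊆ I)).card)

/-- The pair is `(h, f, f')`-bounded. -/
def HPair.Bounded (P : HPair) (h f f' : ℕ) : Prop :=
  (∀ e ∈ P.H, e.card ≤ h) ∧ ∀ e ∈ P.F, f ≤ e.card ∧ e.card ≤ f'

/-- The family is hereditary. -/
def Hereditary (Fam : Set HPair) : Prop := ∀ P ∈ Fam, ∀ S ⊆ P.V, P.restrict S ∈ Fam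

/-- The hypotheses (*) of the problem.  The condition `ex(n, Fam) = O(n ^ β)` is stated in the
strong form `α_H(F) ≤ C n ^ β` for all pairs of the family on `n` vertices and all `n`. -/
structure Star (Fam : Set HPair) (h f f' : ℕ) (β : ℝ) : Prop where
  h_pos : 1 ≤ h
  f_pos : 1 ≤ f
  f_le : f ≤ f'
  hereditary : Hereditary Fam
  bounded : ∀ P ∈ Fam, P.Bounded h f f'
  beta_lt : β < h
  ex_bound : ∃ C : ℝ, ∀ P ∈ Fam, (P.alpha : ℝ) ≤ C * (P.V.card : ℝ) ^ β
  f_lt : (f : ℝ) < h - β
  not_contained : ∀ P ∈ Fam, ∀ e ∈ P.F, ∀ g ∈ P.H, ¬ e ⊆ g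

/-- The `i`-th vertex label in level `j`: parts are residue classes modulo `b`, after the first `a`
(cone) vertices. -/
def lab (a b i j : ℕ) : ℕ := a + (i + b * j)

lemma lab_inj {a b i i' j j' : ℕ} (hi : i < b) (hi' : i' < b) (h : lab a b i j = lab a b i' j') :
    i = i' ∧ j = j' := by
  unfold lab at h
  have h1 : i + b * j = i' + b * j' := by omega
  have h2 : (i + b * j) % b = (i' + b * j') % b := by rw [h1]
  rw [Nat.add_mul_mod_self_left, Nat.add_mul_mod_self_left, Nat.mod_eq_of_lt hi,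
    Nat.mod_eq_of_lt hi'] at h2
  subst h2
  have h3 : b * j = b * j' := by omega
  exact ⟨rfl, Nat.eq_of_mul_eq_mul_left (by omega) h3⟩

/-- the edges of `H` -/
def edgeH (a b x : ℕ) (g : Fin b → Fin x) : Finset ℕ :=
  range a ∪ univ.image (fun i : Fin b => lab a b i (g i))

/-- the edges of `F` -/
def edgeF (a b x : ℕ) (t : Fin b × Fin x × Fin x) : Finset ℕ :=
  range a ∪ {lab a b t.1 t.2.1, lab a b t.1 t.2.2}

lemma lab_lt {a b x : ℕ} (i : Fin b) (j : Fin x) : lab a b i j < a + b * x := by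
  unfold lab
  have h1 := i.isLt
  have h2 : b * (j : ℕ) + b ≤ b * x := by
    rw [← Nat.mul_succ]
    exact Nat.mul_le_mul_left b j.isLt
  omega

lemma edgeH_sub (a b x : ℕ) (g : Fin b → Fin x) : edgeH a b x g ⊆ range (a + b * x) := by
  intro v hv
  unfold edgeH at hv
  rw [mem_union, mem_range, mem_image] at hv
  rw [mem_range]
  rcases hv with hv | ⟨i, _, rfl⟩
  · omega
  · exact lab_lt _ _

lemma edgeF_sub (a b x : ℕ) (t : Fin b × Fin x × Fin x) : edgeF a b x t ⊆ range (a + b * x) := by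
  intro v hv
  unfold edgeF at hv
  rw [mem_union, mem_range, mem_insert, mem_singleton] at hv
  rw [mem_range]
  rcases hv with hv | rfl | rfl
  · omega
  · exact lab_lt _ _
  · exact lab_lt _ _

/-- The basic pair. -/
def basic (a b x : ℕ) : HPair where
  V := range (a + b * x)
  H := (univ : Finset (Fin b → Fin x)).val.map (edgeH a b x)
  F := ((univ : Finset (Fin b × Fin x × Fin x)).filter (fun t => t.2.1 < t.2.2)).val.map
    (edgeF a b x)
  hH := by
    intro e he
    rw [Multiset.mem_map] at he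
    obtain ⟨g, _, rfl⟩ := he
    exact edgeH_sub a b x g
  hF := by
    intro e he
    rw [Multiset.mem_map] at he
    obtain ⟨t, _, rfl⟩ := he
    exact edgeF_sub a b x t

/-- The family of all induced pairs of the basic pairs. -/
def family (a b : ℕ) : Set HPair := {P | ∃ x, ∃ S ⊆ (basic a b x).V, P = (basic a b x).restrict S}

lemma restrict_restrict (P : HPair) {S S' : Finset ℕ} (h : S' ⊆ S) :
    (P.restrict S).restrict S' = P.restrict S' := by
  have key : ∀ M : Multiset (Finset ℕ),
      (M.filter (fun e => e ⊆ S)).filter (fun e => e ⊆ S') = M.filter (fun e => e ⊆ S') := by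
    intro M
    rw [Multiset.filter_filter]
    apply Multiset.filter_congr
    intro e _
    constructor
    · exact fun h => h.1
    · exact fun h' => ⟨h', h'.trans h⟩
  unfold HPair.restrict
  simp only [key]

lemma restrict_self (P : HPair) : P.restrict P.V = P := by
  have h1 : P.H.filter (fun e => e ⊆ P.V) = P.H := Multiset.filter_eq_self.2 P.hH
  have h2 : P.F.filter (fun e => e ⊆ P.V) = P.F := Multiset.filter_eq_self.2 P.hF
  unfold HPair.restrict
  cases P
  simp only at h1 h2
  simp only [h1, h2]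

lemma card_edgeF {a b x : ℕ} {t : Fin b × Fin x × Fin x} (ht : t.2.1 < t.2.2) :
    (edgeF a b x t).card = a + 2 := by
  have hne : lab a b t.1 t.2.1 ≠ lab a b t.1 t.2.2 := by
    intro h
    have := (lab_inj t.1.isLt t.1.isLt h).2
    rw [Fin.val_eq_val] at this
    exact absurd this (ne_of_lt ht)
  unfold edgeF
  rw [card_union_of_disjoint, card_range, card_pair hne]
  rw [disjoint_left]
  intro v hv hv2
  rw [mem_range] at hv
  rw [mem_insert, mem_singleton] at hv2
  unfold lab at hv2
  omega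

lemma card_edgeH {a b x : ℕ} (g : Fin b → Fin x) : (edgeH a b x g).card ≤ a + b := by
  unfold edgeH
  refine (card_union_le _ _).trans ?_
  rw [card_range]
  refine Nat.add_le_add_left (card_image_le.trans ?_) a
  rw [card_univ, Fintype.card_fin]

lemma edgeF_not_sub {a b x : ℕ} {t : Fin b × Fin x × Fin x} (ht : t.2.1 < t.2.2)
    (g : Fin b → Fin x) : ¬ edgeF a b x t ⊆ edgeH a b x g := by
  intro h
  have key : ∀ j : Fin x, lab a b t.1 j ∈ edgeF a b x t → j = g t.1 := by
    intro j hj
    have h1 := h hj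
    unfold edgeH at h1
    rw [mem_union, mem_range, mem_image] at h1
    rcases h1 with h1 | ⟨i, _, hi⟩
    · unfold lab at h1; omega
    · obtain ⟨h2, h3⟩ := lab_inj i.isLt t.1.isLt hi
      rw [Fin.val_eq_val] at h2 h3
      rw [← h2, h3]
  have h1 := key t.2.1 (by unfold edgeF; simp)
  have h2 := key t.2.2 (by unfold edgeF; simp)
  rw [h1, h2] at ht
  exact lt_irrefl _ ht

lemma alpha_le {a b : ℕ} {P : HPair} (hP : P ∈ family a b) : P.alpha ≤ 1 := by
  obtain ⟨x, S, _, rfl⟩ := hP
  unfold HPair.alpha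
  apply Finset.sup_le
  intro I hI
  rw [mem_filter, mem_powerset] at hI
  obtain ⟨hIS, hI0⟩ := hI
  change I ⊆ S at hIS
  rw [Multiset.card_eq_zero] at hI0
  have hno : ∀ t : Fin b × Fin x × Fin x, t.2.1 < t.2.2 → ¬ edgeF a b x t ⊆ I := by
    intro t ht hs
    have h1 : edgeF a b x t ∈ Multiset.filter (fun e => e ⊆ I)
        ((basic a b x).restrict S).F := by
      rw [Multiset.mem_filter]
      refine ⟨?_, hs⟩
      unfold HPair.restrict
      rw [Multiset.mem_filter]
      refine ⟨?_, hs.trans hIS⟩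
      unfold basic
      rw [Multiset.mem_map]
      exact ⟨t, by rw [mem_val, mem_filter]; exact ⟨mem_univ _, ht⟩, rfl⟩
    rw [hI0] at h1
    exact absurd h1 (Multiset.notMem_zero _)
  -- at most one `g` with `edgeH g ⊆ I`
  have hle : Multiset.filter (fun e => e ⊆ I) ((basic a b x).restrict S).H ≤
      Multiset.filter (fun e => e ⊆ I) (basic a b x).H := by
    unfold HPair.restrict
    exact Multiset.filter_le_filter _ (Multiset.filter_le _ _)
  refine (Multiset.card_le_card hle).trans ?_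
  unfold basic
  simp only
  rw [Multiset.filter_map, Multiset.card_map, ← Finset.filter_val, Finset.card_val,
    Finset.card_le_one]
  intro g hg g' hg'
  rw [mem_filter] at hg hg'
  simp only [Function.comp] at hg hg'
  by_contra hne
  obtain ⟨i, hi⟩ := Function.ne_iff.1 hne
  have hmem : ∀ j : Fin x, (j = g i ∨ j = g' i) → lab a b i j ∈ I := by
    rintro j (rfl | rfl)
    · refine hg.2 ?_
      unfold edgeH
      exact mem_union_right _ (mem_image_of_mem (fun i : Fin b => lab a b i (g i)) (mem_univ i))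
    · refine hg'.2 ?_
      unfold edgeH
      exact mem_union_right _ (mem_image_of_mem (fun i : Fin b => lab a b i (g' i)) (mem_univ i))
  have hcone : range a ⊆ I := by
    refine subset_trans ?_ hg.2
    unfold edgeH
    exact subset_union_left
  have hpair : ∀ j j' : Fin x, lab a b i j ∈ I → lab a b i j' ∈ I → ¬ j < j' := by
    intro j j' h1 h2 h3
    refine hno (i, j, j') h3 ?_
    unfold edgeF
    refine union_subset hcone ?_
    intro v hv
    rw [mem_insert, mem_singleton] at hv
    rcases hv with rfl | rfl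
    · exact h1
    · exact h2
  rcases lt_or_gt_of_ne hi with h | h
  · exact hpair _ _ (hmem _ (Or.inl rfl)) (hmem _ (Or.inr rfl)) h
  · exact hpair _ _ (hmem _ (Or.inr rfl)) (hmem _ (Or.inl rfl)) h

lemma star_family (h f : ℕ) (hf : 3 ≤ f) (hfh : f < h) :
    Star (family (f - 2) (h - f + 2)) h f f 0 := by
  refine ⟨by omega, by omega, le_rfl, ?_, ?_, ?_, ?_, ?_, ?_⟩
  · rintro P ⟨x, S, hS, rfl⟩ S' hS'
    change S' ⊆ S at hS'
    exact ⟨x, S', hS'.trans hS, restrict_restrict _ hS'⟩
  · rintro P ⟨x, S, hS, rfl⟩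
    constructor
    · intro e he
      have h1 := (Multiset.mem_filter.1 he).1
      unfold basic at h1
      rw [Multiset.mem_map] at h1
      obtain ⟨g, _, rfl⟩ := h1
      have := card_edgeH (a := f - 2) g
      omega
    · intro e he
      have h1 := (Multiset.mem_filter.1 he).1
      unfold basic at h1
      rw [Multiset.mem_map] at h1
      obtain ⟨t, ht, rfl⟩ := h1
      rw [mem_val, mem_filter] at ht
      have := card_edgeF (a := f - 2) ht.2
      omega
  · exact_mod_cast (show 0 < h by omega)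
  · refine ⟨1, fun P hP => ?_⟩
    rw [Real.rpow_zero, mul_one]
    exact_mod_cast alpha_le hP
  · rw [sub_zero]
    exact_mod_cast hfh
  · rintro P ⟨x, S, hS, rfl⟩ e he g hg
    have h1 := (Multiset.mem_filter.1 he).1
    have h2 := (Multiset.mem_filter.1 hg).1
    unfold basic at h1 h2
    rw [Multiset.mem_map] at h1 h2
    obtain ⟨t, ht, rfl⟩ := h1
    obtain ⟨g', _, rfl⟩ := h2
    rw [mem_val, mem_filter] at ht
    exact edgeF_not_sub ht.2 g'

lemma card_H (a b x : ℕ) : (basic a b x).H.card = x ^ b := by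
  unfold basic
  simp

lemma card_F (a b x : ℕ) : (basic a b x).F.card ≤ b * x ^ 2 := by
  unfold basic
  simp only
  rw [Multiset.card_map, Finset.card_val]
  refine (card_filter_le _ _).trans ?_
  rw [card_univ, Fintype.card_prod, Fintype.card_prod, Fintype.card_fin, Fintype.card_fin]
  rw [pow_two]

/-- For all `3 ≤ f < h` there is a hereditary family of `(h, f, f)`-bounded pairs that satisfies
the hypotheses (*) with `β = 0`, and for which the asserted bound fails. -/
theorem result : ∀ h f : ℕ, 3 ≤ f → f < h → ∃ Fam : Set HPair, Star Fam h f f 0 ∧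
    ∀ k₀ c : ℝ, 0 < c → ∃ P ∈ Fam, ∃ k : ℝ, k₀ ≤ k ∧
      k * (P.V.card : ℝ) ^ (0 : ℝ) ≤ (P.H.card : ℝ) ∧
      (P.F.card : ℝ) < c * k ^ ((f : ℝ) / ((h : ℝ) - 0)) ∧
      (P.F.card : ℝ) ≤ ((h : ℝ) - f + 2) * k ^ (2 / ((h : ℝ) - f + 2)) := by
  intro h f hf hfh
  refine ⟨family (f - 2) (h - f + 2), star_family h f hf hfh, ?_⟩
  intro k₀ c hc
  obtain ⟨b, hb⟩ : ∃ b, b = h - f + 2 := ⟨_, rfl⟩
  rw [← hb]
  have hbr : (b : ℝ) = (h : ℝ) - f + 2 := by
    rw [hb]; push_cast [Nat.cast_sub hfh.le]; ring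
  have hfr : (3 : ℝ) ≤ f := by exact_mod_cast hf
  have hhr : (f : ℝ) + 1 ≤ h := by exact_mod_cast hfh
  have hh0 : (0 : ℝ) < h := by linarith
  have hb0 : (0 : ℝ) < b := by rw [hbr]; linarith
  -- the exponent gap
  have hδ : 0 < (b : ℝ) * (f / h) - 2 := by
    have h1 : (b : ℝ) * (f / h) - 2 = ((h - f) * (f - 2)) / h := by
      rw [hbr]; field_simp; ring
    rw [h1]
    apply div_pos _ hh0
    apply mul_pos <;> linarith
  have htend : Filter.Tendsto (fun x : ℕ => (x : ℝ) ^ ((b : ℝ) * (f / h) - 2)) Filter.atTop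
      Filter.atTop := (tendsto_rpow_atTop hδ).comp tendsto_natCast_atTop_atTop
  obtain ⟨x, hx1, hx2, hx3⟩ : ∃ x : ℕ, (b : ℝ) / c < (x : ℝ) ^ ((b : ℝ) * (f / h) - 2) ∧
      k₀ ≤ (x : ℝ) ∧ 1 ≤ x := by
    have h1 := htend.eventually_gt_atTop ((b : ℝ) / c)
    have h2 := (tendsto_natCast_atTop_atTop (R := ℝ)).eventually_ge_atTop k₀
    have h3 := Filter.eventually_ge_atTop (α := ℕ) 1
    exact (h1.and (h2.and h3)).exists
  have hxr : (1 : ℝ) ≤ x := by exact_mod_cast hx3
  have hx0 : (0 : ℝ) < x := by linarith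
  refine ⟨basic (f - 2) b x, ⟨x, (basic (f - 2) b x).V, Subset.refl _, (restrict_self _).symm⟩,
    (x : ℝ) ^ b, ?_, ?_, ?_, ?_⟩
  · refine hx2.trans ?_
    exact le_self_pow₀ hxr (by omega)
  · rw [Real.rpow_zero, mul_one, card_H]
    push_cast
    exact le_rfl
  · have h1 : ((basic (f - 2) b x).F.card : ℝ) ≤ b * (x : ℝ) ^ 2 := by
      exact_mod_cast card_F (f - 2) b x
    refine lt_of_le_of_lt h1 ?_
    rw [sub_zero, ← Real.rpow_natCast (x : ℝ) b, ← Real.rpow_mul hx0.le]
    have h2 : (x : ℝ) ^ ((b : ℝ) * (f / h)) = (x : ℝ) ^ ((b : ℝ) * (f / h) - 2) * (x : ℝ) ^ 2 := by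
      rw [← Real.rpow_natCast (x : ℝ) 2, ← Real.rpow_add hx0]
      push_cast
      ring_nf
    rw [h2, ← mul_assoc]
    rw [div_lt_iff₀ hc] at hx1
    have h3 : (0 : ℝ) < (x : ℝ) ^ 2 := by positivity
    rw [mul_comm c]
    exact mul_lt_mul_of_pos_right hx1 h3
  · have h1 : ((basic (f - 2) b x).F.card : ℝ) ≤ b * (x : ℝ) ^ 2 := by
      exact_mod_cast card_F (f - 2) b x
    rw [← hbr, ← Real.rpow_natCast (x : ℝ) b, ← Real.rpow_mul hx0.le]
    rw [mul_div_cancel₀ _ (ne_of_gt hb0)]
    rw [← Real.rpow_natCast (x : ℝ) 2] at h1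
    push_cast at h1
    exact h1

end Pool.Agent.Results.MP_362e7f_co.Coning
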